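import Mathlib

/-!
# Few digests cannot help: a counting lemma
-/

set_option autoImplicit false

namespace Pool.Agent.Helper53.RV

open Finset

theorem exp_mul_le {l t : ℝ} (h0 : 0 ≤ t) (h1 : t ≤ 1) : Real.exp (l * t) ≤ 1 + (Real.exp l - 1) * t := by
  have h := convexOn_exp.2 (Set.mem_univ l) (Set.mem_univ (0 : ℝ)) h0 (by linarith : (0 : ℝ) ≤ 1 - t) (by ring)
  simp only [smul_eq_mul, mul_zero, add_zero, Real.exp_zero, mul_one] at h
  rw [mul_comm] at h
  linarith

theorem count {P M D : Type*} [Fintype P] [DecidableEq P] [Fintype M] [Nonempty M] [Fintype D] (B : ℕ)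
    (hD : Fintype.card D ≤ 2 ^ B) (φ : D → P → M → ℝ) (h0 : ∀ d p v, 0 ≤ φ d p v) (h1 : ∀ d p v, φ d p v ≤ 1)
    (δ : ℝ) (hδ : 0 < δ) (hδ1 : δ < 1) (hφ : ∀ d p, ∑ v, φ d p v ≤ δ * Fintype.card M) (h : (P → M) → D) :
    (∑ y : P → M, ∑ p, φ (h y) p (y p)) * Real.logb 2 (1 / δ) ≤
      (Fintype.card M : ℝ) ^ Fintype.card P * (B + Fintype.card P) := by
  set l : ℝ := Real.log (1 / δ) with hl
  have hl2 : 0 < Real.log 2 := Real.log_pos (by norm_num)
  have hδinv : 1 < 1 / δ := by
    rw [lt_div_iff₀ hδ]
    linarith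
  have hel : Real.exp l = 1 / δ := Real.exp_log (by positivity)
  have hM : (0 : ℝ) < Fintype.card M := by exact_mod_cast Fintype.card_pos
  set T : ℝ := (B : ℝ) + Fintype.card P with hT
  set S : (P → M) → ℝ := fun y => ∑ p, φ (h y) p (y p) with hS
  -- the exponential moment
  have hexp : ∑ y : P → M, Real.exp (l * S y) ≤ (2 : ℝ) ^ B * (2 * Fintype.card M) ^ Fintype.card P := by
    have e1 : ∀ y : P → M, Real.exp (l * S y) ≤ ∑ d : D, ∏ p, (1 + (Real.exp l - 1) * φ d p (y p)) := by
      intro y
      have e2 : Real.exp (l * S y) ≤ ∏ p, (1 + (Real.exp l - 1) * φ (h y) p (y p)) := by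
        rw [hS]
        simp only
        rw [mul_sum, Real.exp_sum]
        exact prod_le_prod (fun p _ => (Real.exp_pos _).le) fun p _ => exp_mul_le (h0 _ _ _) (h1 _ _ _)
      refine e2.trans ?_
      refine single_le_sum (f := fun d : D => ∏ p, (1 + (Real.exp l - 1) * φ d p (y p))) (fun d _ => ?_)
        (mem_univ (h y))
      refine prod_nonneg fun p _ => ?_
      have : 0 ≤ Real.exp l - 1 := by
        rw [hel]
        linarith
      have := mul_nonneg this (h0 d p (y p))
      linarith
    calc ∑ y : P → M, Real.exp (l * S y) ≤ ∑ y : P → M, ∑ d : D, ∏ p, (1 + (Real.exp l - 1) * φ d p (y p)) :=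
          sum_le_sum fun y _ => e1 y
      _ = ∑ d : D, ∏ p, ∑ v : M, (1 + (Real.exp l - 1) * φ d p v) := by
          rw [sum_comm]
          refine sum_congr rfl fun d _ => ?_
          rw [Fintype.prod_sum]
      _ ≤ ∑ _d : D, (2 * (Fintype.card M : ℝ)) ^ Fintype.card P := by
          refine sum_le_sum fun d _ => ?_
          rw [← card_univ (α := P), ← prod_const]
          have hc : 0 ≤ Real.exp l - 1 := by
            rw [hel]
            linarith
          refine prod_le_prod (fun p _ => sum_nonneg fun v _ => ?_) fun p _ => ?_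
          · have := mul_nonneg hc (h0 d p v)
            linarith
          · rw [sum_add_distrib, ← mul_sum, sum_const, nsmul_eq_mul, mul_one, card_univ]
            have h3 : (Real.exp l - 1) * ∑ v, φ d p v ≤ (Real.exp l - 1) * (δ * Fintype.card M) :=
              mul_le_mul_of_nonneg_left (hφ d p) hc
            have h4 : (Real.exp l - 1) * (δ * Fintype.card M) = (1 - δ) * Fintype.card M := by
              rw [hel]
              field_simp
            have h5 : (1 - δ) * (Fintype.card M : ℝ) ≤ Fintype.card M := by nlinarith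
            linarith
      _ = (Fintype.card D : ℝ) * (2 * (Fintype.card M : ℝ)) ^ Fintype.card P := by
          rw [sum_const, nsmul_eq_mul, card_univ]
      _ ≤ (2 : ℝ) ^ B * (2 * Fintype.card M) ^ Fintype.card P := by
          refine mul_le_mul_of_nonneg_right ?_ (by positivity)
          exact_mod_cast hD
  -- Jensen
  have hj : ∀ y : P → M, 1 + (l * S y - T * Real.log 2) ≤ Real.exp (l * S y) * Real.exp (-(T * Real.log 2)) := by
    intro y
    rw [← Real.exp_add]
    have := Real.add_one_le_exp (l * S y + -(T * Real.log 2))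
    linarith
  have hsum := sum_le_sum fun (y : P → M) (_ : y ∈ univ) => hj y
  rw [sum_add_distrib, ← sum_mul] at hsum
  have hcard : (∑ _y : P → M, (1 : ℝ)) = (Fintype.card M : ℝ) ^ Fintype.card P := by
    rw [sum_const, nsmul_eq_mul, mul_one, card_univ, Fintype.card_fun]
    push_cast
    rfl
  have hT2 : Real.exp (-(T * Real.log 2)) = 1 / ((2 : ℝ) ^ B * 2 ^ Fintype.card P) := by
    rw [Real.exp_neg, hT, add_mul, Real.exp_add, ← Real.log_pow, ← Real.log_pow, Real.exp_log (by positivity),
      Real.exp_log (by positivity), one_div]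
  have hR : (∑ y : P → M, Real.exp (l * S y)) * Real.exp (-(T * Real.log 2)) ≤
      (Fintype.card M : ℝ) ^ Fintype.card P := by
    rw [hT2, mul_one_div, div_le_iff₀ (by positivity)]
    calc _ ≤ _ := hexp
      _ = _ := by
        rw [mul_pow]
        ring
  rw [hcard] at hsum
  have h6 : ∑ y : P → M, (l * S y - T * Real.log 2) ≤ 0 := by linarith
  rw [sum_sub_distrib, ← mul_sum, sum_const, nsmul_eq_mul, card_univ, Fintype.card_fun] at h6
  push_cast at h6
  have h7 : Real.logb 2 (1 / δ) = l / Real.log 2 := rfl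
  rw [h7, mul_div_assoc', div_le_iff₀ hl2]
  have h8 : (∑ y : P → M, ∑ p, φ (h y) p (y p)) = ∑ y : P → M, S y := rfl
  rw [h8]
  linarith

end Pool.Agent.Helper53.RV
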