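import Mathlib
import Pool.Agent.Helper5.RV.Sys

/-!
# A crossed pair of sides with two planted triangles rarely has a triangle with sum zero
-/

set_option autoImplicit false
set_option linter.unusedSectionVars false

namespace Pool.Agent.Helper53.RV

open Finset Pool.Agent.Helper5.RV

section sums

variable {A Q : Type*} [Fintype A] [Fintype Q]

/-- a sum over a product, the first variable last -/
theorem front {m : ℝ} (F : A → Q → ℝ) (h : ∀ q, m * ∑ a, F a q ≤ Fintype.card A) :
    m * ∑ a, ∑ q, F a q ≤ Fintype.card A * Fintype.card Q := by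
  rw [sum_comm, mul_sum]
  calc ∑ q, m * ∑ a, F a q ≤ ∑ _q : Q, (Fintype.card A : ℝ) := sum_le_sum fun q _ => h q
    _ = Fintype.card A * Fintype.card Q := by
      rw [sum_const, nsmul_eq_mul, card_univ, mul_comm]

theorem lift {m T : ℝ} (G : A → ℝ) (h : ∀ a, m * G a ≤ T) : m * ∑ a, G a ≤ Fintype.card A * T := by
  rw [mul_sum]
  calc ∑ a, m * G a ≤ ∑ _a : A, T := sum_le_sum fun a _ => h a
    _ = Fintype.card A * T := by
      rw [sum_const, nsmul_eq_mul, card_univ]

end sums

section five

variable {A B C D E : Type*} [Fintype A] [Fintype B] [Fintype C] [Fintype D] [Fintype E] {m : ℝ}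
  (F : A → B → C → D → E → ℝ)

theorem pos1 (h : ∀ b c d e, m * ∑ a, F a b c d e ≤ Fintype.card A) :
    m * ∑ a, ∑ b, ∑ c, ∑ d, ∑ e, F a b c d e ≤
      Fintype.card A * Fintype.card B * Fintype.card C * Fintype.card D * Fintype.card E := by
  have h1 := front (A := A) (Q := B × C × D × E) (m := m) (fun a q => F a q.1 q.2.1 q.2.2.1 q.2.2.2)
    fun q => h _ _ _ _
  simp only [Fintype.sum_prod_type, Fintype.card_prod, Nat.cast_mul] at h1
  calc _ ≤ _ := h1
    _ = _ := by ring

theorem pos2 (h : ∀ a c d e, m * ∑ b, F a b c d e ≤ Fintype.card B) :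
    m * ∑ a, ∑ b, ∑ c, ∑ d, ∑ e, F a b c d e ≤
      Fintype.card A * Fintype.card B * Fintype.card C * Fintype.card D * Fintype.card E := by
  have h1 := lift (A := A) (m := m) (T := Fintype.card B * (Fintype.card C * (Fintype.card D * Fintype.card E)))
    (fun a => ∑ b, ∑ c, ∑ d, ∑ e, F a b c d e) fun a => by
      have h2 := front (A := B) (Q := C × D × E) (m := m) (fun b q => F a b q.1 q.2.1 q.2.2) fun q => h _ _ _ _
      simpa only [Fintype.sum_prod_type, Fintype.card_prod, Nat.cast_mul] using h2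
  calc _ ≤ _ := h1
    _ = _ := by ring

theorem pos3 (h : ∀ a b d e, m * ∑ c, F a b c d e ≤ Fintype.card C) :
    m * ∑ a, ∑ b, ∑ c, ∑ d, ∑ e, F a b c d e ≤
      Fintype.card A * Fintype.card B * Fintype.card C * Fintype.card D * Fintype.card E := by
  have h1 := lift (A := A) (m := m) (T := Fintype.card B * (Fintype.card C * (Fintype.card D * Fintype.card E)))
    (fun a => ∑ b, ∑ c, ∑ d, ∑ e, F a b c d e) fun a =>
      lift (A := B) (m := m) (fun b => ∑ c, ∑ d, ∑ e, F a b c d e) fun b => by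
      have h2 := front (A := C) (Q := D × E) (m := m) (fun c q => F a b c q.1 q.2) fun q => h _ _ _ _
      simpa only [Fintype.sum_prod_type, Fintype.card_prod, Nat.cast_mul] using h2
  calc _ ≤ _ := h1
    _ = _ := by ring

theorem pos4 (h : ∀ a b c e, m * ∑ d, F a b c d e ≤ Fintype.card D) :
    m * ∑ a, ∑ b, ∑ c, ∑ d, ∑ e, F a b c d e ≤
      Fintype.card A * Fintype.card B * Fintype.card C * Fintype.card D * Fintype.card E := by
  have h1 := lift (A := A) (m := m) (T := Fintype.card B * (Fintype.card C * (Fintype.card D * Fintype.card E)))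
    (fun a => ∑ b, ∑ c, ∑ d, ∑ e, F a b c d e) fun a =>
      lift (A := B) (m := m) (fun b => ∑ c, ∑ d, ∑ e, F a b c d e) fun b =>
        lift (A := C) (m := m) (fun c => ∑ d, ∑ e, F a b c d e) fun c =>
          front (A := D) (Q := E) (m := m) (fun d e => F a b c d e) fun q => h _ _ _ _
  calc _ ≤ _ := h1
    _ = _ := by ring

theorem pos5 (h : ∀ a b c d, m * ∑ e, F a b c d e ≤ Fintype.card E) :
    m * ∑ a, ∑ b, ∑ c, ∑ d, ∑ e, F a b c d e ≤
      Fintype.card A * Fintype.card B * Fintype.card C * Fintype.card D * Fintype.card E := by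
  have h1 := lift (A := A) (m := m) (T := Fintype.card B * (Fintype.card C * (Fintype.card D * Fintype.card E)))
    (fun a => ∑ b, ∑ c, ∑ d, ∑ e, F a b c d e) fun a =>
      lift (A := B) (m := m) (fun b => ∑ c, ∑ d, ∑ e, F a b c d e) fun b =>
        lift (A := C) (m := m) (fun c => ∑ d, ∑ e, F a b c d e) fun c =>
          lift (A := D) (m := m) (fun d => ∑ e, F a b c d e) fun d => h _ _ _ _
  calc _ ≤ _ := h1
    _ = _ := by ring

end five

/-- At most one value of the cell `a`. -/
theorem one_val {A : Type} [Fintype A] [DecidableEq A] {m : ℕ} (a : A) (P : (A → Fin m) → Prop)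
    (h : ∀ f t t', P (Function.update f a t) → P (Function.update f a t') → t = t') :
    (m : ℝ) * ∑ f : A → Fin m, ind (P f) ≤ Fintype.card (A → Fin m) := by
  have h1 := Helper62.EV.sum_update (V := Fin m) a (fun f : A → Fin m => ind (P f))
  rw [Fintype.card_fin] at h1
  rw [← h1]
  calc ∑ f : A → Fin m, ∑ t : Fin m, ind (P (Function.update f a t)) ≤ ∑ _f : A → Fin m, (1 : ℝ) := by
        refine sum_le_sum fun f _ => ?_
        by_cases hex : ∃ t, P (Function.update f a t)
        · obtain ⟨t0, ht0⟩ := hex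
          rw [sum_eq_single t0]
          · exact ind_le_one _
          · intro t _ hne
            exact ind_of_not fun ht => hne (h f t t0 ht ht0)
          · intro hn
            exact absurd (mem_univ _) hn
        · rw [sum_eq_zero fun t _ => ind_of_not fun ht => hex ⟨t, ht⟩]
          exact zero_le_one
    _ = Fintype.card (A → Fin m) := by
        rw [sum_const, nsmul_eq_mul, mul_one, card_univ]

/-- The same for a cell of the matrix. -/
theorem one_val_mat {I K : Type} [Fintype I] [DecidableEq I] [Fintype K] [DecidableEq K] {m : ℕ} (i : I) (k : K)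
    (P : (I → K → Fin (2 * m)) → Prop)
    (h : ∀ w t t', P (pl w i k t) → P (pl w i k t') → t = t') :
    (m : ℝ) * ∑ w : I → K → Fin (2 * m), ind (P w) ≤ Fintype.card (I → K → Fin (2 * m)) := by
  have hN : (0 : ℝ) ≤ Fintype.card (K → Fin (2 * m)) := by positivity
  rcases Nat.eq_zero_or_pos m with hm | hm
  · subst hm
    simp
  have hN0 : (0 : ℝ) < Fintype.card (K → Fin (2 * m)) := by
    have : Nonempty (K → Fin (2 * m)) := ⟨fun _ => ⟨0, by omega⟩⟩
    exact_mod_cast Fintype.card_pos
  have h1 := Helper62.EV.sum_update (V := K → Fin (2 * m)) i (fun w : I → K → Fin (2 * m) => ind (P w))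
  have h2 : ∀ w : I → K → Fin (2 * m), ((2 * m : ℕ) : ℝ) * ∑ u : K → Fin (2 * m), ind (P (Function.update w i u)) =
      ∑ u : K → Fin (2 * m), ∑ t : Fin (2 * m), ind (P (Function.update w i (Function.update u k t))) := by
    intro w
    have := Helper62.EV.sum_update (V := Fin (2 * m)) k (fun u : K → Fin (2 * m) => ind (P (Function.update w i u)))
    rw [Fintype.card_fin] at this
    exact this.symm
  have h3 : ∀ (w : I → K → Fin (2 * m)) (u : K → Fin (2 * m)),
      ∑ t : Fin (2 * m), ind (P (Function.update w i (Function.update u k t))) ≤ 1 := by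
    intro w u
    have e : ∀ t, Function.update w i (Function.update u k t) = pl (Function.update w i u) i k t := by
      intro t
      unfold pl
      rw [Function.update_self, Function.update_idem]
    simp_rw [e]
    by_cases hex : ∃ t, P (pl (Function.update w i u) i k t)
    · obtain ⟨t0, ht0⟩ := hex
      rw [sum_eq_single t0]
      · exact ind_le_one _
      · intro t _ hne
        exact ind_of_not fun ht => hne (h _ t t0 ht ht0)
      · intro hn
        exact absurd (mem_univ _) hn
    · rw [sum_eq_zero fun t _ => ind_of_not fun ht => hex ⟨t, ht⟩]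
      exact zero_le_one
  have h4 : ((2 * m : ℕ) : ℝ) * (Fintype.card (K → Fin (2 * m)) * ∑ w : I → K → Fin (2 * m), ind (P w)) ≤
      Fintype.card (I → K → Fin (2 * m)) * Fintype.card (K → Fin (2 * m)) := by
    rw [← h1, mul_sum]
    calc ∑ w : I → K → Fin (2 * m), ((2 * m : ℕ) : ℝ) * ∑ u : K → Fin (2 * m), ind (P (Function.update w i u)) ≤
        ∑ _w : I → K → Fin (2 * m), (Fintype.card (K → Fin (2 * m)) : ℝ) := by
          refine sum_le_sum fun w _ => ?_
          rw [h2 w]
          calc _ ≤ ∑ _u : K → Fin (2 * m), (1 : ℝ) := sum_le_sum fun u _ => h3 w u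
            _ = _ := by rw [sum_const, nsmul_eq_mul, mul_one, card_univ]
      _ = _ := by rw [sum_const, nsmul_eq_mul, card_univ]
  have hS : 0 ≤ ∑ w : I → K → Fin (2 * m), ind (P w) := sum_nonneg fun w _ => ind_nonneg _
  have h5 : ((2 * m : ℕ) : ℝ) * ∑ w : I → K → Fin (2 * m), ind (P w) ≤ Fintype.card (I → K → Fin (2 * m)) := by
    have h6 : (((2 * m : ℕ) : ℝ) * ∑ w : I → K → Fin (2 * m), ind (P w)) * Fintype.card (K → Fin (2 * m)) ≤
        Fintype.card (I → K → Fin (2 * m)) * Fintype.card (K → Fin (2 * m)) := by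
      calc _ = _ := by ring
        _ ≤ _ := h4
    exact le_of_mul_le_mul_right h6 hN0
  refine le_trans ?_ h5
  refine mul_le_mul_of_nonneg_right ?_ hS
  push_cast
  have : (0 : ℝ) ≤ m := by positivity
  linarith

theorem pa_left {m : ℕ} {a a' b : Fin m} (h : pa a b = pa a' b) : a = a' := by
  have := congrArg Fin.val h
  simp only [pa] at this
  ext
  omega

theorem pa_right {m : ℕ} {a b b' : Fin m} (h : pa a b = pa a b') : b = b' := by
  have := congrArg Fin.val h
  simp only [pa] at this
  ext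
  omega

variable {I J K : Type} [Fintype I] [DecidableEq I] [Fintype J] [DecidableEq J] [Fintype K] [DecidableEq K] {m : ℕ}

theorem pl_apply (w : I → K → Fin (2 * m)) (i : I) (k : K) (v : Fin (2 * m)) (i' : I) (k' : K) :
    pl w i k v i' k' = if i' = i ∧ k' = k then v else w i' k' := by
  unfold pl
  by_cases hi : i' = i
  · subst hi
    rw [Function.update_self]
    by_cases hk : k' = k
    · subst hk
      simp
    · rw [Function.update_of_ne hk]
      simp [hk]
  · rw [Function.update_of_ne hi]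
    simp [hi]

/-- Union bound. -/
theorem ind_yes_le (x : I × J → Fin m) (y : J × K → Fin m) (w : I → K → Fin (2 * m)) :
    ind (YesC x y w) ≤ ∑ r : I × J × K, ind (w r.1 r.2.2 = pa (x (r.1, r.2.1)) (y (r.2.1, r.2.2))) := by
  by_cases h : YesC x y w
  · obtain ⟨i, j, k, hh⟩ := h
    rw [ind_of ⟨i, j, k, hh⟩, ← ind_of hh]
    exact single_le_sum (f := fun r : I × J × K => ind (w r.1 r.2.2 = pa (x (r.1, r.2.1)) (y (r.2.1, r.2.2))))
      (fun r _ => ind_nonneg _) (mem_univ (i, j, k))
  · rw [ind_of_not h]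
    exact sum_nonneg fun r _ => ind_nonneg _

/-- The union bound, summed. -/
theorem union (P : (I × J → Fin m) → (I × J → Fin m) → (J × K → Fin m) → (J × K → Fin m) →
    (I → K → Fin (2 * m)) → Prop)
    (E : I × J × K → (I × J → Fin m) → (I × J → Fin m) → (J × K → Fin m) → (J × K → Fin m) →
    (I → K → Fin (2 * m)) → Prop)
    (hP : ∀ x x' y y' w, ind (P x x' y y' w) ≤ ∑ r, ind (E r x x' y y' w))
    (hE : ∀ r, (m : ℝ) * ∑ x, ∑ x', ∑ y, ∑ y', ∑ w, ind (E r x x' y y' w) ≤
      Fintype.card (I × J → Fin m) * Fintype.card (I × J → Fin m) * Fintype.card (J × K → Fin m) *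
        Fintype.card (J × K → Fin m) * Fintype.card (I → K → Fin (2 * m))) :
    (m : ℝ) * ∑ x, ∑ x', ∑ y, ∑ y', ∑ w, ind (P x x' y y' w) ≤
      Fintype.card I * Fintype.card J * Fintype.card K *
        ((Fintype.card (I × J → Fin m) : ℝ) ^ 2 * (Fintype.card (J × K → Fin m) : ℝ) ^ 2 *
          Fintype.card (I → K → Fin (2 * m))) := by
  have hm : (0 : ℝ) ≤ m := by positivity
  have h1 : ∑ x, ∑ x', ∑ y, ∑ y', ∑ w, ind (P x x' y y' w) ≤
      ∑ x, ∑ x', ∑ y, ∑ y', ∑ w, ∑ r, ind (E r x x' y y' w) :=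
    sum_le_sum fun x _ => sum_le_sum fun x' _ => sum_le_sum fun y _ => sum_le_sum fun y' _ =>
      sum_le_sum fun w _ => hP x x' y y' w
  have h2 : ∑ x, ∑ x', ∑ y, ∑ y', ∑ w, ∑ r, ind (E r x x' y y' w) =
      ∑ r, ∑ x, ∑ x', ∑ y, ∑ y', ∑ w, ind (E r x x' y y' w) := by
    have h3 := sum_comm (s := (univ : Finset ((I × J → Fin m) × (I × J → Fin m) × (J × K → Fin m) ×
      (J × K → Fin m) × (I → K → Fin (2 * m))))) (t := (univ : Finset (I × J × K)))
      (f := fun q r => ind (E r q.1 q.2.1 q.2.2.1 q.2.2.2.1 q.2.2.2.2))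
    have e1 : ∀ G : (I × J → Fin m) → (I × J → Fin m) → (J × K → Fin m) → (J × K → Fin m) →
        (I → K → Fin (2 * m)) → ℝ, ∑ x, ∑ x', ∑ y, ∑ y', ∑ w, G x x' y y' w =
        ∑ q : (I × J → Fin m) × (I × J → Fin m) × (J × K → Fin m) × (J × K → Fin m) × (I → K → Fin (2 * m)),
          G q.1 q.2.1 q.2.2.1 q.2.2.2.1 q.2.2.2.2 := by
      intro G
      simp only [Fintype.sum_prod_type]
    rw [e1, h3]
    refine sum_congr rfl fun r _ => ?_
    rw [e1]
  calc (m : ℝ) * ∑ x, ∑ x', ∑ y, ∑ y', ∑ w, ind (P x x' y y' w) ≤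
      m * ∑ r, ∑ x, ∑ x', ∑ y, ∑ y', ∑ w, ind (E r x x' y y' w) := by
        refine mul_le_mul_of_nonneg_left ?_ hm
        rw [← h2]
        exact h1
    _ ≤ Fintype.card (I × J × K) * (Fintype.card (I × J → Fin m) * Fintype.card (I × J → Fin m) *
        Fintype.card (J × K → Fin m) * Fintype.card (J × K → Fin m) * Fintype.card (I → K → Fin (2 * m))) :=
        lift _ hE
    _ = _ := by
        rw [Fintype.card_prod, Fintype.card_prod]
        push_cast
        ring

theorem bad_xy (i₁ i₂ : I) (_hi : i₁ ≠ i₂) (j₁ j₂ : J) (k₁ k₂ : K) :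
    (m : ℝ) * ∑ x : I × J → Fin m, ∑ x' : I × J → Fin m, ∑ y : J × K → Fin m, ∑ y' : J × K → Fin m,
      ∑ w : I → K → Fin (2 * m), ind (YesC x' y (plant2 x x' y y' w i₁ j₁ k₁ i₂ j₂ k₂)) ≤
      Fintype.card I * Fintype.card J * Fintype.card K *
        ((Fintype.card (I × J → Fin m) : ℝ) ^ 2 * (Fintype.card (J × K → Fin m) : ℝ) ^ 2 *
          Fintype.card (I → K → Fin (2 * m))) := by
  refine union (fun x x' y y' w => YesC x' y (plant2 x x' y y' w i₁ j₁ k₁ i₂ j₂ k₂))
    (fun r x x' y y' w => plant2 x x' y y' w i₁ j₁ k₁ i₂ j₂ k₂ r.1 r.2.2 = pa (x' (r.1, r.2.1)) (y (r.2.1, r.2.2)))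
    (fun x x' y y' w => ind_yes_le _ _ _) ?_
  rintro ⟨i, j, k⟩
  by_cases h2 : i = i₂ ∧ k = k₂
  · -- one value of `y' (j₂, k₂)`
    refine pos4 _ fun x x' y w => one_val (j₂, k₂) _ ?_
    intro f t t' h h'
    simp only [plant2, pl_apply, h2, and_self, if_true, Function.update_self] at h h'
    exact pa_right (h.trans h'.symm)
  by_cases h1 : i = i₁ ∧ k = k₁
  · -- one value of `x (i₁, j₁)`
    refine pos1 _ fun x' y y' w => one_val (i₁, j₁) _ ?_
    intro f t t' h h'
    rw [h1.1, h1.2] at h2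
    simp only [plant2, pl_apply, h1, h2, and_self, if_true, if_false, Function.update_self] at h h'
    exact pa_left (h.trans h'.symm)
  · refine pos5 _ fun x x' y y' => one_val_mat i k _ ?_
    intro w t t' h h'
    simp only [plant2, pl_apply, h1, h2, and_self, if_true, if_false] at h h'
    exact h.trans h'.symm

theorem bad_yx (i₁ i₂ : I) (_hi : i₁ ≠ i₂) (j₁ j₂ : J) (k₁ k₂ : K) :
    (m : ℝ) * ∑ x : I × J → Fin m, ∑ x' : I × J → Fin m, ∑ y : J × K → Fin m, ∑ y' : J × K → Fin m,
      ∑ w : I → K → Fin (2 * m), ind (YesC x y' (plant2 x x' y y' w i₁ j₁ k₁ i₂ j₂ k₂)) ≤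
      Fintype.card I * Fintype.card J * Fintype.card K *
        ((Fintype.card (I × J → Fin m) : ℝ) ^ 2 * (Fintype.card (J × K → Fin m) : ℝ) ^ 2 *
          Fintype.card (I → K → Fin (2 * m))) := by
  refine union (fun x x' y y' w => YesC x y' (plant2 x x' y y' w i₁ j₁ k₁ i₂ j₂ k₂))
    (fun r x x' y y' w => plant2 x x' y y' w i₁ j₁ k₁ i₂ j₂ k₂ r.1 r.2.2 = pa (x (r.1, r.2.1)) (y' (r.2.1, r.2.2)))
    (fun x x' y y' w => ind_yes_le _ _ _) ?_
  rintro ⟨i, j, k⟩
  by_cases h2 : i = i₂ ∧ k = k₂
  · -- one value of `x' (i₂, j₂)`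
    refine pos2 _ fun x y y' w => one_val (i₂, j₂) _ ?_
    intro f t t' h h'
    simp only [plant2, pl_apply, h2, and_self, if_true, Function.update_self] at h h'
    exact pa_left (h.trans h'.symm)
  by_cases h1 : i = i₁ ∧ k = k₁
  · -- one value of `y (j₁, k₁)`
    refine pos3 _ fun x x' y' w => one_val (j₁, k₁) _ ?_
    intro f t t' h h'
    rw [h1.1, h1.2] at h2
    simp only [plant2, pl_apply, h1, h2, and_self, if_true, if_false, Function.update_self] at h h'
    exact pa_right (h.trans h'.symm)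
  · refine pos5 _ fun x x' y y' => one_val_mat i k _ ?_
    intro w t t' h h'
    simp only [plant2, pl_apply, h1, h2, and_self, if_true, if_false] at h h'
    exact h.trans h'.symm

end Pool.Agent.Helper53.RV
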