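import Mathlib
import Pool.Agent.Helper62.EV.Infl

/-!
# Bessel's inequality for the first order part of a function of independent variables
-/

set_option autoImplicit false

namespace Pool.Agent.Helper53.RV

open Finset

variable {K R : Type*} [Fintype K] [DecidableEq K] [Fintype R]

/-- the mean -/
noncomputable def mean (f : (K → R) → ℝ) : ℝ := (∑ u, f u) / Fintype.card (K → R)

/-- the first order part: the mean with the value `v` in the cell `k`, minus the mean -/
noncomputable def fst1 (f : (K → R) → ℝ) (k : K) (v : R) : ℝ :=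
  mean (fun u => f (Function.update u k v)) - mean f

theorem sum_cell (k : K) (h : (K → R) → ℝ) :
    ∑ u : K → R, ∑ v : R, h (Function.update u k v) = (Fintype.card R : ℝ) * ∑ u, h u :=
  Helper62.EV.sum_update k h

variable [Nonempty R]

theorem bessel_fst (f : (K → R) → ℝ) (h0 : ∀ u, 0 ≤ f u) (h1 : ∀ u, f u ≤ 1) :
    ∑ k, ∑ v, fst1 f k v ^ 2 ≤ Fintype.card R / 4 := by
  classical
  set N : ℝ := (Fintype.card (K → R) : ℝ) with hN
  set r : ℝ := (Fintype.card R : ℝ) with hr
  have hN0 : 0 < N := by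
    rw [hN]
    exact_mod_cast Fintype.card_pos
  have hr0 : 0 < r := by
    rw [hr]
    exact_mod_cast Fintype.card_pos
  set m : ℝ := mean f with hm
  have hmN : ∑ u, f u = N * m := by
    rw [hm, mean, ← hN]
    field_simp
  set G : K → R → ℝ := fst1 f with hG
  have hGv : ∀ k v, ∑ u, f (Function.update u k v) = N * (G k v + m) := by
    intro k v
    rw [hG, fst1, mean, ← hN, hm]
    field_simp
    ring
  -- (a)
  have ha : ∀ k, ∑ v, G k v = 0 := by
    intro k
    have h2 := sum_cell k f
    rw [sum_comm, hmN, ← hr] at h2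
    simp_rw [hGv] at h2
    rw [← mul_sum, sum_add_distrib, sum_const, nsmul_eq_mul, card_univ, ← hr] at h2
    have h3 : N * ∑ v, G k v = 0 := by linarith
    rcases mul_eq_zero.1 h3 with h4 | h4
    · exact absurd h4 hN0.ne'
    · exact h4
  have hc : ∀ k, ∑ u : K → R, G k (u k) = 0 := by
    intro k
    have h2 := sum_cell k (fun u : K → R => G k (u k))
    simp only [Function.update_self] at h2
    rw [ha k, sum_const_zero, ← hr] at h2
    rcases mul_eq_zero.1 h2.symm with h4 | h4
    · exact absurd h4 hr0.ne'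
    · exact h4
  set S : K → ℝ := fun k => N / r * ∑ v, G k v ^ 2 with hS
  have hb : ∀ k, ∑ u, f u * G k (u k) = S k := by
    intro k
    have h2 := sum_cell k (fun u : K → R => f u * G k (u k))
    simp only [Function.update_self] at h2
    rw [sum_comm, ← hr] at h2
    simp_rw [← sum_mul, hGv] at h2
    have h3 : ∑ v, N * (G k v + m) * G k v = N * ∑ v, G k v ^ 2 := by
      have : ∀ v, N * (G k v + m) * G k v = N * G k v ^ 2 + N * m * G k v := fun v => by ring
      simp_rw [this]
      rw [sum_add_distrib, ← mul_sum, ← mul_sum, ha k]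
      ring
    rw [h3] at h2
    rw [hS]
    simp only
    rw [div_mul_eq_mul_div, eq_div_iff hr0.ne']
    linarith
  have he : ∀ k, ∑ u : K → R, G k (u k) ^ 2 = S k := by
    intro k
    have h2 := sum_cell k (fun u : K → R => G k (u k) ^ 2)
    simp only [Function.update_self] at h2
    rw [sum_const, nsmul_eq_mul, card_univ, ← hN, ← hr] at h2
    rw [hS]
    simp only
    rw [div_mul_eq_mul_div, eq_div_iff hr0.ne']
    linarith
  have hd : ∀ k l, k ≠ l → ∑ u : K → R, G k (u k) * G l (u l) = 0 := by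
    intro k l hkl
    have h2 := sum_cell k (fun u : K → R => G k (u k) * G l (u l))
    simp only [Function.update_self, Function.update_of_ne hkl.symm] at h2
    simp_rw [← sum_mul] at h2
    simp_rw [ha k, zero_mul] at h2
    rw [sum_const_zero, ← hr] at h2
    rcases mul_eq_zero.1 h2.symm with h4 | h4
    · exact absurd h4 hr0.ne'
    · exact h4
  -- the sum of squares
  have hsq : 0 ≤ ∑ u : K → R, (f u - m - ∑ k, G k (u k)) ^ 2 := sum_nonneg fun u _ => sq_nonneg _
  have hexp : ∑ u : K → R, (f u - m - ∑ k, G k (u k)) ^ 2 =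
      ∑ u, (f u - m) ^ 2 - 2 * ∑ k, ∑ u : K → R, (f u - m) * G k (u k) +
        ∑ k, ∑ l, ∑ u : K → R, G k (u k) * G l (u l) := by
    have e : ∀ u : K → R, (f u - m - ∑ k, G k (u k)) ^ 2 =
        (f u - m) ^ 2 - 2 * ∑ k, (f u - m) * G k (u k) + ∑ k, ∑ l, G k (u k) * G l (u l) := by
      intro u
      rw [← sum_mul_sum, ← mul_sum]
      ring
    simp_rw [e]
    rw [sum_add_distrib, sum_sub_distrib, ← mul_sum, sum_comm (s := (univ : Finset (K → R)))]
    congr 1
    rw [sum_comm]
    refine sum_congr rfl fun k _ => ?_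
    rw [sum_comm]
  have h5 : ∀ k, ∑ u : K → R, (f u - m) * G k (u k) = S k := by
    intro k
    simp_rw [sub_mul]
    rw [sum_sub_distrib, hb k, ← mul_sum, hc k]
    ring
  have h6 : ∑ k, ∑ l, ∑ u : K → R, G k (u k) * G l (u l) = ∑ k, S k := by
    refine sum_congr rfl fun k _ => ?_
    rw [sum_eq_single k]
    · rw [← he k]
      refine sum_congr rfl fun u _ => ?_
      ring
    · intro l _ hl
      exact hd k l (Ne.symm hl)
    · intro h
      exact absurd (mem_univ _) h
  rw [hexp, sum_congr rfl fun k _ => h5 k, h6] at hsq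
  have h7 : ∑ u, (f u - m) ^ 2 ≤ N / 4 := by
    have e : ∀ u, (f u - m) ^ 2 ≤ f u - 2 * m * f u + m ^ 2 := by
      intro u
      nlinarith [h0 u, h1 u]
    calc ∑ u, (f u - m) ^ 2 ≤ ∑ u, (f u - 2 * m * f u + m ^ 2) := sum_le_sum fun u _ => e u
      _ = N * m - 2 * m * (N * m) + N * m ^ 2 := by
          rw [sum_add_distrib, sum_sub_distrib, ← mul_sum, hmN, sum_const, nsmul_eq_mul, card_univ]
      _ ≤ N / 4 := by nlinarith [sq_nonneg (m - 1 / 2)]
  have h8 : ∑ k, S k ≤ N / 4 := by linarith
  have h9 : ∑ k, S k = N / r * ∑ k, ∑ v, G k v ^ 2 := by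
    rw [hS, mul_sum]
  rw [h9] at h8
  have h10 : N / r * ∑ k, ∑ v, G k v ^ 2 ≤ N / r * (r / 4) := by
    calc _ ≤ _ := h8
      _ = _ := by field_simp
  exact le_of_mul_le_mul_left h10 (by positivity)

end Pool.Agent.Helper53.RV
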