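import Mathlib
import Pool.Agent.Helper53.RV.Count

/-!
# Few digests cannot help: the version with different densities
-/

set_option autoImplicit false

namespace Pool.Agent.Helper53.RV

open Finset

/-- For every digest `d` the `φ d p` have means at most `δ d p`, with sum at most `Δ`. -/
theorem count_sum {P M D : Type*} [Fintype P] [DecidableEq P] [Fintype M] [Nonempty M] [Fintype D] (B Δ L : ℝ)
    (hD : (Fintype.card D : ℝ) ≤ 2 ^ B) (φ : D → P → M → ℝ) (h0 : ∀ d p v, 0 ≤ φ d p v) (h1 : ∀ d p v, φ d p v ≤ 1)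
    (hL : 1 < L) (hφ : ∀ d, ∑ p, ∑ v, φ d p v ≤ Δ * Fintype.card M) (h : (P → M) → D) :
    (∑ y : P → M, ∑ p, φ (h y) p (y p)) * Real.logb 2 L ≤
      (Fintype.card M : ℝ) ^ Fintype.card P * (B + (L - 1) * Δ / Real.log 2) := by
  set l : ℝ := Real.log L with hl
  have hl2 : 0 < Real.log 2 := Real.log_pos (by norm_num)
  have hL0 : 0 < L := by linarith
  have hel : Real.exp l = L := Real.exp_log hL0
  have hM : (0 : ℝ) < Fintype.card M := by exact_mod_cast Fintype.card_pos
  set T : ℝ := B * Real.log 2 + (L - 1) * Δ with hT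
  set S : (P → M) → ℝ := fun y => ∑ p, φ (h y) p (y p) with hS
  -- the exponential moment
  have hexp : ∑ y : P → M, Real.exp (l * S y) ≤
      (2 : ℝ) ^ B * ((Fintype.card M : ℝ) ^ Fintype.card P * Real.exp ((L - 1) * Δ)) := by
    have e1 : ∀ y : P → M, Real.exp (l * S y) ≤ ∑ d : D, ∏ p, (1 + (L - 1) * φ d p (y p)) := by
      intro y
      have e2 : Real.exp (l * S y) ≤ ∏ p, (1 + (L - 1) * φ (h y) p (y p)) := by
        rw [hS]
        simp only
        rw [mul_sum, Real.exp_sum]
        refine prod_le_prod (fun p _ => (Real.exp_pos _).le) fun p _ => ?_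
        have := exp_mul_le (l := l) (h0 (h y) p (y p)) (h1 (h y) p (y p))
        rwa [hel] at this
      refine e2.trans ?_
      refine single_le_sum (f := fun d : D => ∏ p, (1 + (L - 1) * φ d p (y p))) (fun d _ => ?_)
        (mem_univ (h y))
      refine prod_nonneg fun p _ => ?_
      have := mul_nonneg (by linarith : (0 : ℝ) ≤ L - 1) (h0 d p (y p))
      linarith
    calc ∑ y : P → M, Real.exp (l * S y) ≤ ∑ y : P → M, ∑ d : D, ∏ p, (1 + (L - 1) * φ d p (y p)) :=
          sum_le_sum fun y _ => e1 y
      _ = ∑ d : D, ∏ p, ∑ v : M, (1 + (L - 1) * φ d p v) := by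
          rw [sum_comm]
          refine sum_congr rfl fun d _ => ?_
          rw [Fintype.prod_sum]
      _ ≤ ∑ _d : D, (Fintype.card M : ℝ) ^ Fintype.card P * Real.exp ((L - 1) * Δ) := by
          refine sum_le_sum fun d _ => ?_
          have e3 : ∀ p, ∑ v : M, (1 + (L - 1) * φ d p v) ≤
              Fintype.card M * Real.exp ((L - 1) * (∑ v, φ d p v) / Fintype.card M) := by
            intro p
            rw [sum_add_distrib, ← mul_sum, sum_const, nsmul_eq_mul, mul_one, card_univ]
            have h3 := Real.add_one_le_exp ((L - 1) * (∑ v, φ d p v) / Fintype.card M)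
            have h4 := mul_le_mul_of_nonneg_left h3 hM.le
            calc (Fintype.card M : ℝ) + (L - 1) * ∑ v, φ d p v =
                Fintype.card M * ((L - 1) * (∑ v, φ d p v) / Fintype.card M + 1) := by field_simp; ring
              _ ≤ _ := h4
          calc ∏ p, ∑ v : M, (1 + (L - 1) * φ d p v) ≤
              ∏ p, (Fintype.card M * Real.exp ((L - 1) * (∑ v, φ d p v) / Fintype.card M)) :=
                prod_le_prod (fun p _ => sum_nonneg fun v _ => by
                  have := mul_nonneg (by linarith : (0 : ℝ) ≤ L - 1) (h0 d p v)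
                  linarith) fun p _ => e3 p
            _ = (Fintype.card M : ℝ) ^ Fintype.card P * Real.exp ((L - 1) * (∑ p, ∑ v, φ d p v) / Fintype.card M) := by
                rw [prod_mul_distrib, prod_const, card_univ, ← Real.exp_sum]
                congr 2
                rw [← sum_div, ← mul_sum]
            _ ≤ _ := by
                refine mul_le_mul_of_nonneg_left (Real.exp_le_exp.mpr ?_) (by positivity)
                rw [div_le_iff₀ hM]
                calc (L - 1) * ∑ p, ∑ v, φ d p v ≤ (L - 1) * (Δ * Fintype.card M) :=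
                      mul_le_mul_of_nonneg_left (hφ d) (by linarith)
                  _ = _ := by ring
      _ = (Fintype.card D : ℝ) * ((Fintype.card M : ℝ) ^ Fintype.card P * Real.exp ((L - 1) * Δ)) := by
          rw [sum_const, nsmul_eq_mul, card_univ]
      _ ≤ _ := mul_le_mul_of_nonneg_right hD (by positivity)
  -- Jensen
  have hj : ∀ y : P → M, 1 + (l * S y - T) ≤ Real.exp (l * S y) * Real.exp (-T) := by
    intro y
    rw [← Real.exp_add]
    have := Real.add_one_le_exp (l * S y + -T)
    linarith
  have hsum := sum_le_sum fun (y : P → M) (_ : y ∈ univ) => hj y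
  rw [sum_add_distrib, ← sum_mul] at hsum
  have hcard : (∑ _y : P → M, (1 : ℝ)) = (Fintype.card M : ℝ) ^ Fintype.card P := by
    rw [sum_const, nsmul_eq_mul, mul_one, card_univ, Fintype.card_fun]
    push_cast
    rfl
  have hT2 : Real.exp (-T) = 1 / ((2 : ℝ) ^ B * Real.exp ((L - 1) * Δ)) := by
    rw [Real.exp_neg, hT, Real.exp_add, one_div, Real.rpow_def_of_pos (by norm_num : (0 : ℝ) < 2), mul_comm B]
  have hR : (∑ y : P → M, Real.exp (l * S y)) * Real.exp (-T) ≤ (Fintype.card M : ℝ) ^ Fintype.card P := by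
    rw [hT2, mul_one_div, div_le_iff₀ (by positivity)]
    calc _ ≤ _ := hexp
      _ = _ := by ring
  rw [hcard] at hsum
  have h6 : ∑ y : P → M, (l * S y - T) ≤ 0 := by linarith
  rw [sum_sub_distrib, ← mul_sum, sum_const, nsmul_eq_mul, card_univ, Fintype.card_fun] at h6
  push_cast at h6
  have h7 : Real.logb 2 L = l / Real.log 2 := rfl
  rw [h7, mul_div_assoc', div_le_iff₀ hl2]
  have h8 : (∑ y : P → M, ∑ p, φ (h y) p (y p)) = ∑ y : P → M, S y := rfl
  rw [h8]
  have h9 : (Fintype.card M : ℝ) ^ Fintype.card P * (B + (L - 1) * Δ / Real.log 2) * Real.log 2 =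
      (Fintype.card M : ℝ) ^ Fintype.card P * T := by
    rw [hT]
    field_simp
  rw [h9]
  linarith

end Pool.Agent.Helper53.RV
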