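import Mathlib
import Pool.Agent.Helper5.RV.Sys
import Pool.Agent.Helper53.RV.CountSum
import Pool.Agent.Helper53.RV.Bes

/-!
# One step: a random cell gets a planted value

`F d`, `d : D`, are functions of a row `u : K → Fin (2 m)` with values in `[0, 1]`. The cell `k` gets the value
`a j + y (j, k)`. For random `y` the mean of `F (h y)` changes little, although the digest `h y` may depend on `y`, if
there are few digests.
-/

set_option autoImplicit false

namespace Pool.Agent.Helper53.RV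

open Finset Pool.Agent.Helper5.RV

theorem mean_le_one {K R : Type*} [Fintype K] [DecidableEq K] [Fintype R] [Nonempty R] (f : (K → R) → ℝ)
    (h1 : ∀ u, f u ≤ 1) : mean f ≤ 1 := by
  unfold mean
  have hN0 : (0 : ℝ) < Fintype.card (K → R) := by exact_mod_cast Fintype.card_pos
  rw [div_le_one hN0]
  calc ∑ u, f u ≤ ∑ _u : K → R, (1 : ℝ) := sum_le_sum fun u _ => h1 u
    _ = Fintype.card (K → R) := by rw [sum_const, nsmul_eq_mul, mul_one, card_univ]

theorem mean_nonneg {K R : Type*} [Fintype K] [DecidableEq K] [Fintype R] (f : (K → R) → ℝ)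
    (h0 : ∀ u, 0 ≤ f u) : 0 ≤ mean f :=
  div_nonneg (sum_nonneg fun u _ => h0 u) (Nat.cast_nonneg _)

theorem abs_fst1_le {K R : Type*} [Fintype K] [DecidableEq K] [Fintype R] [Nonempty R] (f : (K → R) → ℝ)
    (h0 : ∀ u, 0 ≤ f u) (h1 : ∀ u, f u ≤ 1) (k : K) (v : R) : |fst1 f k v| ≤ 1 := by
  have a1 := mean_le_one f h1
  have a2 := mean_nonneg f h0
  have b1 := mean_le_one (fun u => f (Function.update u k v)) fun u => h1 _
  have b2 := mean_nonneg (fun u => f (Function.update u k v)) fun u => h0 _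
  unfold fst1
  rw [abs_le]
  constructor <;> linarith

theorem step {J K D : Type} [Fintype J] [DecidableEq J] [Fintype K] [DecidableEq K] [Fintype D] {m : ℕ} (hm : 0 < m)
    (B L s : ℝ) (hL : 1 < L) (hs : 0 < s) (hD : (Fintype.card D : ℝ) ≤ 2 ^ B) (F : D → (K → Fin (2 * m)) → ℝ)
    (h0 : ∀ d u, 0 ≤ F d u) (h1 : ∀ d u, F d u ≤ 1) (a : J → Fin m) (h : (J × K → Fin m) → D) :
    ∑ y : J × K → Fin m, ∑ p : J × K, |fst1 (F (h y)) p.2 (pa (a p.1) (y p))| ≤
      Fintype.card (J × K → Fin m) * (s * (Fintype.card J * Fintype.card K) +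
        (B + (L - 1) * (Fintype.card J / (2 * s ^ 2)) / Real.log 2) / Real.logb 2 L) := by
  classical
  have : Nonempty (Fin m) := ⟨⟨0, hm⟩⟩
  have : Nonempty (Fin (2 * m)) := ⟨⟨0, by omega⟩⟩
  have hlog : 0 < Real.logb 2 L := Real.logb_pos (by norm_num) hL
  set φ : D → J × K → Fin m → ℝ := fun d p v => ind (s ≤ |fst1 (F d) p.2 (pa (a p.1) v)|) with hφ
  have hφ0 : ∀ d p v, 0 ≤ φ d p v := fun d p v => ind_nonneg _
  have hφ1 : ∀ d p v, φ d p v ≤ 1 := fun d p v => ind_le_one _
  have hs2 : 0 < s ^ 2 := by positivity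
  -- the densities
  have hcell : ∀ d (p : J × K), ∑ v, φ d p v ≤ (∑ z, fst1 (F d) p.2 z ^ 2) / s ^ 2 := by
    intro d p
    rw [sum_div]
    have e1 : ∀ v : Fin m, φ d p v ≤ fst1 (F d) p.2 (pa (a p.1) v) ^ 2 / s ^ 2 := by
      intro v
      rw [hφ]
      simp only
      by_cases hh : s ≤ |fst1 (F d) p.2 (pa (a p.1) v)|
      · rw [ind_of hh, le_div_iff₀ hs2, one_mul, ← sq_abs (fst1 (F d) p.2 (pa (a p.1) v))]
        exact pow_le_pow_left₀ hs.le hh 2
      · rw [ind_of_not hh]
        positivity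
    have hinj : Function.Injective (fun v : Fin m => pa (a p.1) v) := by
      intro v v' hv
      have := congrArg Fin.val hv
      simp only [pa] at this
      ext
      omega
    calc ∑ v, φ d p v ≤ ∑ v : Fin m, fst1 (F d) p.2 (pa (a p.1) v) ^ 2 / s ^ 2 := sum_le_sum fun v _ => e1 v
      _ = ∑ z ∈ univ.image (fun v : Fin m => pa (a p.1) v), fst1 (F d) p.2 z ^ 2 / s ^ 2 := by
          rw [sum_image fun v _ v' _ hv => hinj hv]
      _ ≤ ∑ z, fst1 (F d) p.2 z ^ 2 / s ^ 2 :=
          sum_le_sum_of_subset_of_nonneg (subset_univ _) fun z _ _ => by positivity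
  have hΔ : ∀ d, ∑ p, ∑ v, φ d p v ≤ (Fintype.card J / (2 * s ^ 2)) * Fintype.card (Fin m) := by
    intro d
    have hb := bessel_fst (F d) (h0 d) (h1 d)
    calc ∑ p, ∑ v, φ d p v ≤ ∑ p : J × K, (∑ z, fst1 (F d) p.2 z ^ 2) / s ^ 2 := sum_le_sum fun p _ => hcell d p
      _ = Fintype.card J * ((∑ k, ∑ z, fst1 (F d) k z ^ 2) / s ^ 2) := by
          rw [Fintype.sum_prod_type]
          simp only
          rw [sum_const, nsmul_eq_mul, card_univ, sum_div]
      _ ≤ Fintype.card J * ((Fintype.card (Fin (2 * m)) / 4) / s ^ 2) := by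
          refine mul_le_mul_of_nonneg_left (div_le_div_of_nonneg_right hb hs2.le) (Nat.cast_nonneg _)
      _ = (Fintype.card J / (2 * s ^ 2)) * Fintype.card (Fin m) := by
          rw [Fintype.card_fin, Fintype.card_fin]
          push_cast
          field_simp
          ring
  have hc := count_sum B (Fintype.card J / (2 * s ^ 2)) L hD φ hφ0 hφ1 hL hΔ h
  have hcY : (Fintype.card (Fin m) : ℝ) ^ Fintype.card (J × K) = Fintype.card (J × K → Fin m) := by
    rw [Fintype.card_fun]
    push_cast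
    rfl
  rw [hcY] at hc
  have hle : ∀ (y : J × K → Fin m) (p : J × K), |fst1 (F (h y)) p.2 (pa (a p.1) (y p))| ≤ s + φ (h y) p (y p) := by
    intro y p
    rw [hφ]
    simp only
    by_cases hh : s ≤ |fst1 (F (h y)) p.2 (pa (a p.1) (y p))|
    · rw [ind_of hh]
      have := abs_fst1_le (F (h y)) (h0 _) (h1 _) p.2 (pa (a p.1) (y p))
      linarith
    · rw [ind_of_not hh]
      have := not_le.mp hh
      linarith
  calc ∑ y : J × K → Fin m, ∑ p : J × K, |fst1 (F (h y)) p.2 (pa (a p.1) (y p))| ≤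
      ∑ y : J × K → Fin m, ∑ p : J × K, (s + φ (h y) p (y p)) :=
        sum_le_sum fun y _ => sum_le_sum fun p _ => hle y p
    _ = Fintype.card (J × K → Fin m) * (s * (Fintype.card J * Fintype.card K)) +
        ∑ y : J × K → Fin m, ∑ p : J × K, φ (h y) p (y p) := by
        simp_rw [sum_add_distrib]
        rw [sum_const, sum_const, nsmul_eq_mul, nsmul_eq_mul, card_univ, card_univ, Fintype.card_prod]
        push_cast
        ring
    _ ≤ Fintype.card (J × K → Fin m) * (s * (Fintype.card J * Fintype.card K)) +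
        Fintype.card (J × K → Fin m) * ((B + (L - 1) * (Fintype.card J / (2 * s ^ 2)) / Real.log 2) / Real.logb 2 L) := by
        refine add_le_add_right ?_ _
        rw [mul_div_assoc', le_div_iff₀ hlog]
        exact hc
    _ = _ := by ring

end Pool.Agent.Helper53.RV
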